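import Pool.Agent.P.MP_9d0e7f_co.Sp.Main

open Pool.Agent.P.MP_9d0e7f_co.Log Pool.Agent.P.MP_9d0e7f_co.Sp

/-- The number of Hamilton cycles of an `n`-vertex graph `G` is determined by its
`(n - l)`-vertex deck if `G` has a path on `l + 2` vertices of degree two, `n ≥ l + 3` and
`n ≥ 2 l - 1`. -/
theorem Pool.Agent.Results.MP_9d0e7f_co.BarePath.result (n l : ℕ) (G G' : SimpleGraph (Fin n))
    (h3 : l + 3 ≤ n) (h2 : 2 * l ≤ n + 1) (hG : HasBarePath G (l + 2))
    (hdeck : deck G (n - l) = deck G' (n - l)) : hamCount G = hamCount G' :=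
  partA' h3 h2 hG hdeck
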