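import Pool.Agent.P.MP_9d0e7f_co.Sp.Main

open Pool.Agent.P.MP_9d0e7f_co.Log Pool.Agent.P.MP_9d0e7f_co.Sp

/-- For every `r ≥ 2` there is `C` such that for every `L ≥ 1` some Hamiltonian graph on
`r L + C` vertices with a path on `L` vertices of degree two has the same `(r - 1) L`-vertex deck
as a graph without a Hamilton cycle. -/
theorem Pool.Agent.Results.MP_9d0e7f_co.BarePathSharp.result (r : ℕ) (hr : 2 ≤ r) :
    ∃ C : ℕ, ∀ L : ℕ, 1 ≤ L → ∃ G G' : SimpleGraph (Fin (r * L + C)),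
      HasBarePath G L ∧ 0 < hamCount G ∧ hamCount G' = 0 ∧
        deck G ((r - 1) * L) = deck G' ((r - 1) * L) :=
  partC r hr
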