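import Pool.Agent.P.MP_9d0e7f_co.Log.Main

open Pool.Agent.P.MP_9d0e7f_co.Log

/-- For every `ε > 0` and all large `n` there are two `n`-vertex graphs, one with a Hamilton cycle
and one without, whose `t`-vertex decks agree for every `t ≤ n - (1 + ε) n / log₂ n`. -/
theorem Pool.Agent.Results.MP_9d0e7f_co.LogDeck.result (ε : ℝ) (hε : 0 < ε) :
    ∀ᶠ n : ℕ in Filter.atTop, ∃ G G' : SimpleGraph (Fin n),
      (∀ t : ℕ, (t : ℝ) ≤ n - (1 + ε) * n / Real.logb 2 n → deck G t = deck G' t) ∧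
        0 < hamCount G ∧ hamCount G' = 0 :=
  main ε hε
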